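import Pool.Agent.Helper5.Core2.Defs

/-! Offer O3 for MP_fafe86_al: in a group of the class the squares commute. -/

set_option autoImplicit false

namespace Pool.Agent.Helper35.Core2

open Subgroup Pool.Agent.Helper5.Core2

section Aux

variable {G : Type*} [Group G]

theorem toQuotient (h : IsC G) (N : Subgroup G) [N.Normal] : IsC (G ⧸ N) := by
  have key : ∀ x y : G, (PP x y).map (QuotientGroup.mk' N) =
      PP (QuotientGroup.mk x : G ⧸ N) (QuotientGroup.mk y) := by
    intro x y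
    unfold PP
    rw [Subgroup.map_sup, Subgroup.map_sup, MonoidHom.map_zpowers, MonoidHom.map_zpowers,
      MonoidHom.map_zpowers]
    rfl
  refine ⟨h.two.to_quotient N, ?_, ?_⟩
  · intro x g
    induction x using QuotientGroup.induction_on with
    | H x =>
      induction g using QuotientGroup.induction_on with
      | H g =>
        have h1 := h.F1 x g
        have h2 : (QuotientGroup.mk' N) (g * x ^ 2 * g⁻¹) ∈
            (zpowers (x ^ 2)).map (QuotientGroup.mk' N) := Subgroup.mem_map_of_mem _ h1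
        rw [MonoidHom.map_zpowers] at h2
        exact h2
  · intro x y
    induction x using QuotientGroup.induction_on with
    | H x =>
      induction y using QuotientGroup.induction_on with
      | H y =>
        rw [← key x y]
        rcases h.star x y with h1 | h1 | h1
        · left
          intro g
          induction g using QuotientGroup.induction_on with
          | H g => exact Subgroup.mem_map_of_mem (QuotientGroup.mk' N) (h1 g)
        · right; left
          intro g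
          induction g using QuotientGroup.induction_on with
          | H g => exact Subgroup.mem_map_of_mem (QuotientGroup.mk' N) (h1 g)
        · right; right
          intro g
          induction g using QuotientGroup.induction_on with
          | H g => exact Subgroup.mem_map_of_mem (QuotientGroup.mk' N) (h1 g)

theorem exists_mono [Finite G] (K : Subgroup G) (hK : K.Normal) {z : G} (hz : z ∉ K) :
    ∃ N : Subgroup G, ∃ _ : N.Normal, K ≤ N ∧ z ∉ N ∧ Mono (QuotientGroup.mk z : G ⧸ N) := by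
  classical
  let S : Set (Subgroup G) := {N | N.Normal ∧ K ≤ N ∧ z ∉ N}
  have hfin : S.Finite := Set.toFinite S
  have hne : S.Nonempty := ⟨K, hK, le_rfl, hz⟩
  obtain ⟨N, hN⟩ := hfin.exists_maximal hne
  obtain ⟨hNn, hKN, hzN⟩ := hN.prop
  refine ⟨N, hNn, hKN, hzN, ?_, ?_⟩
  · intro h1
    exact hzN ((QuotientGroup.eq_one_iff z).mp h1)
  · intro M hM hMne
    by_contra hzM
    have hmem : M.comap (QuotientGroup.mk' N) ∈ S := by
      refine ⟨hM.comap _, ?_, ?_⟩
      · intro k hk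
        rw [Subgroup.mem_comap]
        have : (QuotientGroup.mk' N) k = 1 := (QuotientGroup.eq_one_iff k).mpr (hKN hk)
        rw [this]
        exact one_mem M
      · intro h1
        exact hzM h1
    have hle : N ≤ M.comap (QuotientGroup.mk' N) := by
      intro k hk
      rw [Subgroup.mem_comap]
      have : (QuotientGroup.mk' N) k = 1 := (QuotientGroup.eq_one_iff k).mpr hk
      rw [this]
      exact one_mem M
    have hle2 := hN.le_of_ge hmem hle
    apply hMne
    rw [Subgroup.eq_bot_iff_forall]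
    intro m hm
    obtain ⟨g, rfl⟩ := QuotientGroup.mk_surjective m
    exact (QuotientGroup.eq_one_iff g).mpr (hle2 hm)

theorem zpowers_sq_normal (h : IsC G) (w : G) : (zpowers (w ^ 2)).Normal := by
  refine ⟨?_⟩
  intro n hn g
  obtain ⟨k, rfl⟩ := Subgroup.mem_zpowers_iff.mp hn
  have h1 : g * (w ^ 2) ^ k * g⁻¹ = (g * w ^ 2 * g⁻¹) ^ k := by
    rw [conj_zpow]
  rw [h1]
  exact Subgroup.zpow_mem _ (h.F1 w g) k

theorem mono_mem (h : IsC G) {z : G} (hz : Mono z) {w : G} (hw : w ^ 2 ≠ 1) :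
    z ∈ zpowers (w ^ 2) := by
  refine hz.2 _ (zpowers_sq_normal h w) ?_
  intro h1
  exact hw (Subgroup.zpowers_eq_bot.mp h1)

/-- a nontrivial element of 2-power order has a power of order two -/
theorem exists_invol (h2 : IsPGroup 2 G) {g : G} (hg : g ≠ 1) :
    ∃ n : ℕ, g ^ n ≠ 1 ∧ (g ^ n) ^ 2 = 1 := by
  classical
  obtain ⟨k, hk⟩ := h2 g
  have hex : ∃ k : ℕ, g ^ (2 ^ k) = 1 := ⟨k, hk⟩
  set m := Nat.find hex with hm
  have h1 : g ^ (2 ^ m) = 1 := Nat.find_spec hex
  have hm0 : m ≠ 0 := by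
    intro h0
    rw [h0] at h1
    simp at h1
    exact hg h1
  obtain ⟨j, hj⟩ := Nat.exists_eq_succ_of_ne_zero hm0
  refine ⟨2 ^ j, ?_, ?_⟩
  · exact Nat.find_min hex (by omega)
  · rw [← pow_mul, ← pow_succ]
    rw [hj] at h1
    exact h1

theorem mono_center [Finite G] (h2 : IsPGroup 2 G) {z : G} (hz : Mono z) :
    z ∈ center G ∧ z ^ 2 = 1 := by
  have hnt : Nontrivial G := ⟨z, 1, hz.1⟩
  haveI : Fact (Nat.Prime 2) := ⟨Nat.prime_two⟩
  have hcn : Nontrivial (center G) := h2.center_nontrivial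
  obtain ⟨c, hc⟩ := exists_ne (1 : center G)
  have hc1 : (c : G) ≠ 1 := fun h => hc (Subtype.ext h)
  obtain ⟨n, hn1, hn2⟩ := exists_invol h2 hc1
  set t : G := (c : G) ^ n with ht
  have htc : t ∈ center G := Subgroup.pow_mem _ c.2 n
  have hnorm : (zpowers t).Normal := by
    refine ⟨?_⟩
    intro m hm g
    have hmc : m ∈ center G := by
      obtain ⟨k, rfl⟩ := Subgroup.mem_zpowers_iff.mp hm
      exact Subgroup.zpow_mem _ htc k
    have : g * m * g⁻¹ = m := by
      rw [Subgroup.mem_center_iff.mp hmc g]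
      group
    rw [this]
    exact hm
  have hzt : z ∈ zpowers t := hz.2 _ hnorm (fun h => hn1 (Subgroup.zpowers_eq_bot.mp h))
  obtain ⟨k, hk⟩ := Subgroup.mem_zpowers_iff.mp hzt
  refine ⟨?_, ?_⟩
  · rw [← hk]
    exact Subgroup.zpow_mem _ htc k
  · rw [← hk, ← zpow_natCast, ← zpow_mul, mul_comm, zpow_mul, zpow_natCast, hn2, one_zpow]

/-- the involution of a cyclic group is unique -/
theorem unique_invol [Finite G] {a t z : G} (ht : t ∈ zpowers a) (hz : z ∈ zpowers a)
    (ht2 : t ^ 2 = 1) (hz2 : z ^ 2 = 1) (ht1 : t ≠ 1) (hz1 : z ≠ 1) : t = z := by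
  classical
  by_contra hne
  haveI := Fintype.ofFinite (zpowers a)
  have hcard := IsCyclic.card_pow_eq_one_le (α := zpowers a) (n := 2) (by norm_num)
  have hsub : ({1, ⟨t, ht⟩, ⟨z, hz⟩} : Finset (zpowers a)) ⊆
      Finset.univ.filter (fun g : zpowers a => g ^ 2 = 1) := by
    intro g hg
    simp only [Finset.mem_insert, Finset.mem_singleton] at hg
    rw [Finset.mem_filter]
    refine ⟨Finset.mem_univ _, ?_⟩
    rcases hg with rfl | rfl | rfl
    · simp
    · exact Subtype.ext ht2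
    · exact Subtype.ext hz2
  have h3 : ({1, ⟨t, ht⟩, ⟨z, hz⟩} : Finset (zpowers a)).card = 3 := by
    rw [Finset.card_eq_three]
    refine ⟨1, ⟨t, ht⟩, ⟨z, hz⟩, ?_, ?_, ?_, rfl⟩
    · intro h
      exact ht1 (congrArg Subtype.val h).symm
    · intro h
      exact hz1 (congrArg Subtype.val h).symm
    · intro h
      exact hne (congrArg Subtype.val h)
  have := Finset.card_le_card hsub
  omega

theorem odd_mem {g : G} {k : ℕ} (hg : g ^ (2 ^ k) = 1) {i : ℤ} (hi : Odd i) :
    g ∈ zpowers (g ^ i) := by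
  have hcop : IsCoprime i ((2 : ℤ) ^ k) := by
    apply IsCoprime.pow_right
    rw [Int.isCoprime_iff_gcd_eq_one]
    rw [Int.gcd_comm]
    have := Int.isCoprime_iff_gcd_eq_one.mp (Int.isCoprime_two_left.mpr hi)
    exact this
  obtain ⟨u, v, huv⟩ := hcop
  rw [Subgroup.mem_zpowers_iff]
  refine ⟨u, ?_⟩
  have h1 : g ^ (u * i + v * 2 ^ k) = g := by rw [huv, zpow_one]
  have h2 : g ^ (v * 2 ^ k) = 1 := by
    have : ((2 : ℤ) ^ k) = ((2 ^ k : ℕ) : ℤ) := by push_cast; rfl
    rw [mul_comm, zpow_mul, this, zpow_natCast, hg, one_zpow]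
  rw [zpow_add, h2, mul_one] at h1
  rw [← zpow_mul, mul_comm i u]
  exact h1

end Aux

section Core

variable {G : Type*} [Group G]

/-- if `x²,y²` do not commute and `z = [x²,y²]` is the monolith then `(x²)²` is not in `⟨y²⟩` -/
theorem not_sq_mem [Finite G] (h : IsC G) {x y z : G} (hz : Mono z)
    (hxy : x ^ 2 * y ^ 2 ≠ y ^ 2 * x ^ 2) : (x ^ 2) ^ 2 ∉ zpowers (y ^ 2) := by
  intro hmem
  obtain ⟨hzc, hz2⟩ := mono_center h.two hz
  have hzc' : ∀ g, g * z = z * g := Subgroup.mem_center_iff.mp hzc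
  set a := x ^ 2 with ha
  have ha1 : a ≠ 1 := by
    intro h1
    apply hxy
    rw [h1]; simp
  -- a² commutes with y
  have hcomm : y * a ^ 2 * y⁻¹ = a ^ 2 := by
    obtain ⟨k, hk⟩ := Subgroup.mem_zpowers_iff.mp hmem
    have : Commute y (a ^ 2) := by
      rw [← hk]
      exact ((Commute.refl y).pow_right 2).zpow_right k
    rw [this.eq]
    group
  have ha' : y * a * y⁻¹ ∈ zpowers a := h.F1 x y
  set t := y * a * y⁻¹ * a⁻¹ with ht
  have hta : t ∈ zpowers a := mul_mem ha' (inv_mem (mem_zpowers a))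
  have ht2 : t ^ 2 = 1 := by
    have hc : Commute (y * a * y⁻¹) a := by
      obtain ⟨k, hk⟩ := Subgroup.mem_zpowers_iff.mp ha'
      rw [← hk]
      exact (Commute.refl a).zpow_left k
    have hc' : Commute (y * a * y⁻¹) a⁻¹ := hc.inv_right
    rw [ht, hc'.mul_pow, conj_pow, hcomm, inv_pow]
    simp
  have hyy : ∀ s : G, s ∈ center G → s ^ 2 = 1 → y * a * y⁻¹ = s * a → False := by
    intro s hs hs2 hya
    apply hxy
    have hsc : ∀ g, g * s = s * g := Subgroup.mem_center_iff.mp hs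
    have h1 : y ^ 2 * a * (y ^ 2)⁻¹ = a := by
      have : y ^ 2 * a * (y ^ 2)⁻¹ = y * (y * a * y⁻¹) * y⁻¹ := by
        rw [pow_two]; group
      rw [this, hya]
      have h3 : y * (s * a) * y⁻¹ = s * (y * a * y⁻¹) := by
        rw [← mul_assoc, hsc y]
        group
      rw [h3, hya, ← mul_assoc, ← pow_two, hs2, one_mul]
    calc a * y ^ 2 = (y ^ 2 * a * (y ^ 2)⁻¹) * y ^ 2 := by rw [h1]
      _ = y ^ 2 * a := by group
  by_cases ht1 : t = 1
  · refine hyy 1 (one_mem _) (one_pow 2) ?_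
    rw [one_mul]
    exact mul_inv_eq_one.mp ht1
  · have hza : z ∈ zpowers a := mono_mem h hz ha1
    have htz : t = z := unique_invol hta hza ht2 hz2 ht1 hz.1
    refine hyy z hzc hz2 ?_
    rw [← htz, ht]
    group

theorem core [Finite G] (h : IsC G) {x y z : G} (hz : Mono z)
    (hxy : x ^ 2 * y ^ 2 = z * (y ^ 2 * x ^ 2)) : False := by
  classical
  obtain ⟨hzc, hz2⟩ := mono_center h.two hz
  have hzc' : ∀ g, g * z = z * g := Subgroup.mem_center_iff.mp hzc
  have hne : x ^ 2 * y ^ 2 ≠ y ^ 2 * x ^ 2 := by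
    intro h1
    rw [hxy] at h1
    apply hz.1
    simpa using h1
  have hA := not_sq_mem h hz hne
  have hB := not_sq_mem h hz (Ne.symm hne)
  have ha1 : x ^ 2 ≠ 1 := by
    intro h1
    apply hne
    rw [h1]; simp
  have hb1 : y ^ 2 ≠ 1 := by
    intro h1
    apply hne
    rw [h1]; simp
  have hzb : z ∈ zpowers (y ^ 2) := mono_mem h hz hb1
  set a := x ^ 2 with ha
  set b := y ^ 2 with hb
  obtain ⟨K, hK⟩ := h.two a
  obtain ⟨L, hL⟩ := h.two b
  have hex : ∃ s : ℕ, a ^ (2 ^ s) ∈ zpowers b := ⟨K, by rw [hK]; exact one_mem _⟩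
  set s := Nat.find hex with hs
  have hs1 : a ^ (2 ^ s) ∈ zpowers b := Nat.find_spec hex
  have hs0 : s ≠ 0 := by
    intro h0
    rw [h0] at hs1
    simp only [pow_zero, pow_one] at hs1
    apply hA
    exact pow_mem hs1 2
  have hs0' : s ≠ 1 := by
    intro h0
    rw [h0] at hs1
    simp only [pow_one] at hs1
    exact hA hs1
  obtain ⟨r, hr⟩ : ∃ r, s = r + 2 := ⟨s - 2, by omega⟩
  obtain ⟨i, hi⟩ := Subgroup.mem_zpowers_iff.mp hs1
  -- 4 ∣ i
  have hbd : b ^ 2 ∉ zpowers (b ^ i) := by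
    intro h1
    apply hB
    rw [hi] at h1
    obtain ⟨k, hk⟩ := Subgroup.mem_zpowers_iff.mp h1
    rw [← hk]
    exact Subgroup.zpow_mem _ (Subgroup.pow_mem _ (mem_zpowers a) _) k
  have h4 : (4 : ℤ) ∣ i := by
    by_contra h4
    apply hbd
    rcases Int.even_or_odd i with he | ho
    · obtain ⟨i', hi'⟩ := he
      have ho' : Odd i' := by
        by_contra hcon
        rw [Int.not_odd_iff_even] at hcon
        obtain ⟨j, hj⟩ := hcon
        apply h4
        exact ⟨j, by omega⟩
      have hb2 : (b ^ 2) ^ (2 ^ L) = 1 := by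
        rw [← pow_mul, mul_comm, pow_mul, hL, one_pow]
      have := odd_mem hb2 ho'
      have heq : (b ^ 2) ^ i' = b ^ i := by
        rw [← zpow_natCast b 2, ← zpow_mul]
        congr 1
        rw [hi']
        push_cast
        ring
      rw [heq] at this
      exact this
    · exact pow_mem (odd_mem hL ho) 2
  obtain ⟨j, hj⟩ := h4
  -- commutation relations
  have hsb : SemiconjBy a b (z * b) := by
    show a * b = z * b * a
    rw [hxy, mul_assoc]
  set f := b ^ (-j) with hf
  have hzb' : Commute z b := (hzc' b).symm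
  have h5 : SemiconjBy a f ((z * b) ^ (-j)) := hsb.zpow_right (-j)
  rw [hzb'.mul_zpow] at h5
  -- ε = z^(-j)
  set ε := z ^ (-j) with hε
  have hεc : ∀ g, g * ε = ε * g :=
    Subgroup.mem_center_iff.mp (Subgroup.zpow_mem _ hzc _)
  have hε2 : ε ^ 2 = 1 := by
    rw [hε, ← zpow_natCast, ← zpow_mul, mul_comm, zpow_mul, zpow_natCast, hz2, one_zpow]
  have h6 : a * f = ε * f * a := h5
  have h7 : SemiconjBy f a (ε * a) := by
    show f * a = ε * a * f
    have : ε * (a * f) = f * a := by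
      rw [h6, ← mul_assoc, ← mul_assoc, ← pow_two, hε2, one_mul]
    rw [mul_assoc, this]
  set e := a ^ (2 ^ r) with he
  have h8 : SemiconjBy f e ((ε * a) ^ (2 ^ r)) := h7.pow_right _
  have hεa : Commute ε a := (hεc a).symm
  rw [hεa.mul_pow] at h8
  set ζ := ε ^ (2 ^ r) with hζ
  have hζz : ζ ∈ center G := Subgroup.pow_mem _ (Subgroup.zpow_mem _ hzc _) _
  have hζc : ∀ g, g * ζ = ζ * g := Subgroup.mem_center_iff.mp hζz
  have hζ2 : ζ ^ 2 = 1 := by
    rw [hζ, ← pow_mul, mul_comm, pow_mul, hε2, one_pow]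
  have hζb : ζ ∈ zpowers b := Subgroup.pow_mem _ (Subgroup.zpow_mem _ hzb _) _
  have h9 : f * e = ζ * (e * f) := by
    have : f * e = ζ * e * f := h8
    rw [this, mul_assoc]
  -- e⁴ f⁴ = 1
  have he4 : e ^ 4 = b ^ (4 * j) := by
    rw [he, ← pow_mul]
    have : (2 ^ r * 4) = 2 ^ s := by rw [hr, pow_add]; norm_num
    rw [this, ← hi, hj]
  have hf4 : f ^ 4 = b ^ (-(4 * j)) := by
    rw [hf, ← zpow_natCast, ← zpow_mul]
    congr 1
    push_cast
    ring
  have hw2 : (e * f) ^ 2 = ζ * (e ^ 2 * f ^ 2) := by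
    calc (e * f) ^ 2 = e * (f * e) * f := by rw [pow_two]; simp only [mul_assoc]
      _ = e * (ζ * (e * f)) * f := by rw [h9]
      _ = (e * ζ) * (e * f * f) := by simp only [mul_assoc]
      _ = (ζ * e) * (e * f * f) := by rw [hζc]
      _ = ζ * (e ^ 2 * f ^ 2) := by rw [pow_two, pow_two]; simp only [mul_assoc]
  have hcom : f ^ 2 * e = e * f ^ 2 := by
    calc f ^ 2 * e = f * (f * e) := by rw [pow_two, mul_assoc]
      _ = f * (ζ * (e * f)) := by rw [h9]
      _ = (f * ζ) * (e * f) := by rw [mul_assoc]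
      _ = ζ * ((f * e) * f) := by rw [hζc]; simp only [mul_assoc]
      _ = ζ * (ζ * (e * f) * f) := by rw [h9]
      _ = (ζ ^ 2) * (e * f ^ 2) := by rw [pow_two, pow_two]; simp only [mul_assoc]
      _ = e * f ^ 2 := by rw [hζ2, one_mul]
  have hcom' : Commute (e ^ 2) (f ^ 2) := by
    have : Commute e (f ^ 2) := hcom.symm
    exact this.pow_left 2
  have hw4 : ((e * f) ^ 2) ^ 2 = 1 := by
    rw [hw2]
    have hcz : Commute ζ (e ^ 2 * f ^ 2) := (hζc _).symm
    have he4' : (e ^ 2) ^ 2 = b ^ (4 * j) := by rw [← he4, ← pow_mul]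
    have hf4' : (f ^ 2) ^ 2 = b ^ (-(4 * j)) := by rw [← hf4, ← pow_mul]
    rw [hcz.mul_pow, hζ2, one_mul, hcom'.mul_pow, he4', hf4', zpow_neg, mul_inv_cancel]
  -- key contradiction
  have hnot : (e * f) ^ 2 ∉ zpowers b := by
    intro h1
    have h2 : e ^ 2 ∈ zpowers b := by
      have h3 : e ^ 2 = ζ⁻¹ * (e * f) ^ 2 * (f ^ 2)⁻¹ := by
        rw [hw2]; group
      rw [h3]
      refine mul_mem (mul_mem (inv_mem hζb) h1) (inv_mem ?_)
      exact Subgroup.pow_mem _ (Subgroup.zpow_mem _ (mem_zpowers b) _) _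
    have h4 : a ^ (2 ^ (r + 1)) ∈ zpowers b := by
      rw [pow_succ, pow_mul]
      exact h2
    exact Nat.find_min hex (by omega : r + 1 < s) h4
  have hw1 : (e * f) ^ 2 ≠ 1 := by
    intro h1
    apply hnot
    rw [h1]
    exact one_mem _
  have hzw := mono_mem h hz hw1
  have : (e * f) ^ 2 = z := by
    exact unique_invol (mem_zpowers _) hzw hw4 hz2 hw1 hz.1
  exact hnot (this ▸ hzb)

/-- squares commute in every group of the class -/
theorem sq_comm [Finite G] (h : IsC G) (x y : G) : x ^ 2 * y ^ 2 = y ^ 2 * x ^ 2 := by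
  by_contra hne
  set z := x ^ 2 * y ^ 2 * (x ^ 2)⁻¹ * (y ^ 2)⁻¹ with hz
  have hz1 : z ≠ 1 := by
    intro h1
    apply hne
    have : x ^ 2 * y ^ 2 = z * (y ^ 2 * x ^ 2) := by rw [hz]; group
    rw [this, h1, one_mul]
  obtain ⟨N, hN, -, -, hmono⟩ := exists_mono (⊥ : Subgroup G) inferInstance
    (z := z) (by rwa [Subgroup.mem_bot])
  refine core (toQuotient h N) hmono (x := (QuotientGroup.mk x : G ⧸ N))
    (y := (QuotientGroup.mk y : G ⧸ N)) ?_
  have : x ^ 2 * y ^ 2 = z * (y ^ 2 * x ^ 2) := by rw [hz]; group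
  have h2 := congrArg (QuotientGroup.mk : G → G ⧸ N) this
  exact h2

end Core

end Pool.Agent.Helper35.Core2
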